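import Mathlib
import Pool.Agent.H822.HM.Bridge

/-!
# MP_68f289_gt, Q1 and Q2: Calabi invariants of hameotopy loops and simplicity

Let `B` be the open unit ball of `ℝ^{2n}`, `n ≥ 1`. `HamHomeo n` is the group of the compactly
supported Hamiltonian homeomorphisms of `B`, and `Hameo n` the set of the hameomorphisms of Oh and
Müller: the time one maps of hameotopies, the uniform limits of the flows of Hamiltonians `H k`
which are supported in a common compact subset of `B` and are Cauchy for the Hofer norm. The limit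
`c` of the integrals of the `H k` is a *Calabi value* of the time one map `φ`; it depends, a
priori, on the hameotopy.

Question Q1 asks whether `HamHomeo n` is simple, Q2 whether `Hameo n` is simple (`n ≥ 2`).

**Theorem.** Either `Rigid n` holds: every hameomorphism has only one Calabi value (equivalently,
the hameotopies which are loops have only the value zero), or `Flexible n`: every real number is a
Calabi value of every hameomorphism. If `Rigid n` holds, the Calabi homomorphism extends to
`Hameo n`, which is neither perfect nor simple; `Hameo n` is a normal subgroup of `HamHomeo n`,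
the quotient has elements of infinite order, and `HamHomeo n` is not simple. So a positive answer to Q1 or to Q2 implies that
`Flexible n` holds: all real numbers are limits of the Calabi invariants of Hamiltonians which are
Cauchy for the Hofer norm and whose flows converge uniformly to a loop. To disprove both it is
enough to find one real number which is not such a limit.

Proof. The Calabi values of the products, inverses and conjugates by Hamiltonian homeomorphisms are
the sums, opposites and the same numbers; the dilation by `s ≤ 1` multiplies them by `s^{2n+2}`. So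
the set of the values of the loops is a subgroup of `ℝ` closed under the multiplication by the
numbers in `(0, 1]`. In the rigid case the value is a homomorphism, homogeneous under dilations,
and there are no such homomorphisms on `HamHomeo n` (a theorem of the library, proved with infinite
products of dilated maps).
-/

set_option autoImplicit false

open scoped ContDiff commutatorElement
open Set Filter Topology Function MeasureTheory
open Pool.Agent.H822.HC Pool.Agent.H822.HM
open Pool.Agent.H822.Cal (cal)
open Pool.Agent.H822.CalGrp (IsCalabi isCalabi_iff gen_cal)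
open Pool.Agent.Y453.HB (E Q XH IsHam HamBar)
open Pool.Agent.R773.HN (Homeos HamHomeo IsHamDiffeo)

namespace Pool.Agent.Results.MP_68f289_gt.HameotopyLoops

variable {n : ℕ}

/-- Every hameomorphism has a Calabi value; the values are compatible with products and inverses,
and invariant under the conjugation by Hamiltonian homeomorphisms; the Calabi invariant of a
Hamiltonian diffeomorphism is one of its values. -/
structure Values (n : ℕ) : Prop where
  exist : ∀ φ ∈ Hameo n, ∃ c, CalabiValue φ c
  div : ∀ (φ ψ : Homeos n) (c d : ℝ), CalabiValue φ c → CalabiValue ψ d →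
    CalabiValue (φ * ψ⁻¹) (c - d)
  conj : ∀ (φ g : Homeos n) (c : ℝ), CalabiValue φ c → g ∈ HamHomeo n →
    CalabiValue (g * φ * g⁻¹) c
  smooth : ∀ (u : Homeos n) (r : ℝ), Calabi u r → CalabiValue u r

/-- the hameotopies which are loops have only the Calabi value zero -/
def Rigid (n : ℕ) : Prop := ∀ c : ℝ, CalabiValue (1 : Homeos n) c → c = 0

/-- every real number is a Calabi value of every hameomorphism -/
def Flexible (n : ℕ) : Prop := ∀ φ ∈ Hameo n, ∀ c : ℝ, CalabiValue φ c

/-- `c` is a homomorphism from `Hameo n` onto `ℝ` whose value is the only Calabi value; it is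
invariant under the conjugation by Hamiltonian homeomorphisms -/
structure IsCalabiHom (c : HameoGroup n →* Multiplicative ℝ) : Prop where
  surjective : Surjective c
  value : ∀ (φ : HameoGroup n) (r : ℝ), CalabiValue φ.homeo r ↔ c φ = Multiplicative.ofAdd r
  conj : ∀ (φ ψ : HameoGroup n) (g : Homeos n), g ∈ HamHomeo n →
    ψ.homeo = g * φ.homeo * g⁻¹ → c ψ = c φ

/-- there is a Hamiltonian homeomorphism no power of which is a hameomorphism -/
def InfiniteOrder (n : ℕ) : Prop := ∃ φ ∈ HamHomeo n, ∀ m : ℕ, m ≠ 0 → φ ^ m ∉ Hameo n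

/-- The Calabi homomorphism extends to `Hameo n`, the groups `Hameo n` and `HamHomeo n` are not
simple, `Hameo n` is not perfect, and the quotient of the second group by the first one has
elements of infinite order. -/
structure NotSimple (n : ℕ) : Prop where
  hom : ∃ c : HameoGroup n →* Multiplicative ℝ, IsCalabiHom c
  hameo : ¬ IsSimpleGroup (HameoGroup n)
  hamHomeo : ¬ IsSimpleGroup (HamHomeoGroup n)
  perfect : commutator (HameoGroup n) ≠ ⊤
  order : InfiniteOrder n

theorem exists_ham (r : ℝ) : ∃ u : E n ≃ₜ E n, IsHam u ∧ IsCalabi u r := by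
  have hcQ : Continuous (Q : E n → ℝ) := (Pool.Agent.Y453.HB.tri n).2.2.2.1
  have h0 : {p : E n | Q p < 1} ∈ 𝓝 (0 : E n) := by
    refine (isOpen_lt hcQ continuous_const).mem_nhds ?_
    show Q (0 : E n) < 1
    have : Q (0 : E n) = 0 := by simp [Q]
    rw [this]
    exact one_pos
  obtain ⟨ρ, hρ, hρB⟩ := Metric.nhds_basis_closedBall.mem_iff.1 h0
  let χ : ContDiffBump (0 : E n) := ⟨ρ / 2, ρ, by linarith, by linarith⟩
  have hpos : 0 < ∫ x, χ x ∂(volume : Measure (E n)) := χ.integral_pos
  set h : E n → ℝ := fun x => r / (∫ x, χ x ∂(volume : Measure (E n))) * χ x with hh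
  have hs : ContDiff ℝ ∞ h := contDiff_const.mul χ.contDiff
  have hoff : ∀ x, x ∉ Metric.closedBall (0 : E n) ρ → h x = 0 := by
    intro x hx
    rw [hh]
    simp only
    rw [χ.zero_of_le_dist, mul_zero]
    rw [Metric.mem_closedBall, not_le] at hx
    exact hx.le
  obtain ⟨u, ψ, h1, -, h3, h4, h5⟩ := Pool.Agent.R773.HN.flow n h hs (Metric.closedBall 0 ρ)
    (isCompact_closedBall 0 ρ) hρB hoff
  refine ⟨u, h1, fun _ => h, ⟨hs.comp contDiff_snd, ⟨Metric.closedBall 0 ρ,
    isCompact_closedBall 0 ρ, hρB, fun _ => hoff⟩, ψ, h3, h4, h5⟩, ?_⟩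
  have e1 : ∫ x, h x = r := by
    rw [hh, integral_const_mul]
    field_simp
  show r = ∫ t in (0 : ℝ)..1, ∫ x, h x
  rw [e1]
  simp

theorem values (hn : 0 < n) : Values n where
  exist φ hφ := by
    obtain ⟨c, hc⟩ := (isHo_iff hn _).1 ((isHameo_iff φ).1 hφ)
    exact ⟨c, (value_iff hn φ c).2 hc⟩
  div φ ψ c d hc hd := by
    have h1 := ((value_iff hn φ c).1 hc).mul hn (((value_iff hn ψ d).1 hd).inv hn)
    rw [← sub_eq_add_neg] at h1
    exact (value_iff hn _ _).2 h1
  conj φ g c hc hg :=
    (value_iff hn _ _).2 (((value_iff hn φ c).1 hc).conj hn (hamBar_of hg))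
  smooth u r hr := by
    have hr' := (calabi_iff u r).1 hr
    rw [(isCalabi_iff hn hr'.isHam r).1 hr']
    exact (value_iff hn _ _).2 (hasC_ham hr'.isHam)

theorem dichotomy (hn : 0 < n) : Rigid n ∨ Flexible n := by
  by_cases h : Rigid n
  · exact Or.inl h
  · right
    unfold Rigid at h
    push Not at h
    obtain ⟨c, hc, hc0⟩ := h
    intro φ hφ d
    exact (value_iff hn φ d).2 (hasC_all hn hc0 ((value_iff hn 1 c).1 hc) ((isHameo_iff φ).1 hφ) d)

theorem mem_ham {u : Homeos n} (hu : IsHam u.homeo) : u ∈ Hameo n := (isHameo_iff u).2 (isHo_ham hu)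

theorem exists_hom (hn : 0 < n) (hR : Rigid n) :
    ∃ c : HameoGroup n →* Multiplicative ℝ, IsCalabiHom c := by
  have hU : ∀ c, HasC (1 : E n ≃ₜ E n) c → c = 0 := fun c hc =>
    hR c ((value_iff hn (1 : Homeos n) c).2 hc)
  have hval : ∀ φ : HameoGroup n, ∃ r, HasC φ.homeo.homeo r := fun φ =>
    (isHo_iff hn _).1 ((isHameo_iff _).1 φ.2)
  choose v hv using hval
  let c : HameoGroup n →* Multiplicative ℝ :=
    MonoidHom.mk' (fun φ => Multiplicative.ofAdd (v φ)) fun φ ψ => by
      rw [← ofAdd_add]
      exact congrArg Multiplicative.ofAdd (hasC_unique hn hU (hv (φ * ψ)) ((hv φ).mul hn (hv ψ)))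
  have hc : ∀ (φ : HameoGroup n) (r : ℝ), HasC φ.homeo.homeo r → c φ = Multiplicative.ofAdd r :=
    fun φ r h => congrArg Multiplicative.ofAdd (hasC_unique hn hU (hv φ) h)
  refine ⟨c, fun r => ?_, fun φ r => ⟨fun h => hc φ r ((value_iff hn _ _).1 h), fun h => ?_⟩,
    fun φ ψ g hg h => ?_⟩
  · obtain ⟨u, hu, hr⟩ := exists_ham (n := n) (Multiplicative.toAdd r)
    let u' : Homeos n := u
    refine ⟨⟨u', mem_ham hu⟩, ?_⟩
    have h1 := (isCalabi_iff hn hu _).1 hr
    rw [hc ⟨u', mem_ham hu⟩ (cal u) (hasC_ham hu), ← h1]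
    rfl
  · have h1 : v φ = r := Multiplicative.ofAdd.injective h
    rw [← h1]
    exact (value_iff hn _ _).2 (hv φ)
  · have h1 := (hv φ).conj hn (hamBar_of hg)
    have h2 : ψ.homeo.homeo = g.homeo * φ.homeo.homeo * g.homeo⁻¹ := h
    exact hc ψ (v φ) (by rw [h2]; exact h1)

theorem noncomm (hn : 0 < n) : ∃ a b : Homeos n, IsHam a.homeo ∧ IsHam b.homeo ∧ ⁅a, b⁆ ≠ 1 := by
  obtain ⟨a, b, ha, hb, -, -, hab⟩ := Pool.Agent.R773.HN.L3
    (Pool.Agent.R773.HN.trans Pool.Agent.R773.HN.flow) hn (q := (0 : E n)) (r := 1 / 2)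
    (by norm_num) (by rw [Pool.Agent.R773.HN.nm_zero]; norm_num)
  exact ⟨a, b, ha, hb, hab⟩

theorem hameo_le : Hameo n ≤ HamHomeo n := fun φ hφ => ((isHameo_iff φ).1 hφ).mem

theorem inf_index (hn : 0 < n) (hR : Rigid n) : InfiniteOrder n := by
  have hU : ∀ c, HasC (1 : E n ≃ₜ E n) c → c = 0 := fun c hc =>
    hR c ((value_iff hn (1 : Homeos n) c).2 hc)
  obtain ⟨u, hu, hr⟩ := exists_ham (n := n) 1
  have h1 := (isCalabi_iff hn hu _).1 hr
  obtain ⟨φ, hφ, hφ1⟩ := inf_order hn hU hu (by rw [← h1]; norm_num)
  exact ⟨φ, hφ, fun m hm h => hφ1 m hm ((isHameo_iff _).1 h)⟩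

theorem not_eq (hn : 0 < n) (hR : Rigid n) : Hameo n ≠ HamHomeo n := by
  intro h
  obtain ⟨φ, hφ, hφ1⟩ := inf_index hn hR
  rw [← h] at hφ
  exact hφ1 1 one_ne_zero (by rwa [pow_one])

theorem not_perfect (hn : 0 < n) (hR : Rigid n) : commutator (HameoGroup n) ≠ ⊤ := by
  obtain ⟨c, hc⟩ := exists_hom hn hR
  intro htop
  obtain ⟨φ, hφ⟩ := hc.surjective (Multiplicative.ofAdd 1)
  have h1 : commutator (HameoGroup n) ≤ c.ker := Abelianization.commutator_subset_ker _
  rw [htop] at h1
  have h2 : c φ = 1 := h1 (Subgroup.mem_top φ)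
  rw [h2] at hφ
  have := congrArg Multiplicative.toAdd hφ
  simp at this

theorem not_simple (hn : 0 < n) (hR : Rigid n) : ¬ IsSimpleGroup (HameoGroup n) := by
  intro hsimple
  rcases hsimple.eq_bot_or_eq_top_of_normal (commutator (HameoGroup n)) inferInstance with h | h
  · obtain ⟨a, b, ha, hb, hab⟩ := noncomm hn
    let a2 : HameoGroup n := ⟨a, mem_ham ha⟩
    let b2 : HameoGroup n := ⟨b, mem_ham hb⟩
    have h1 : (⁅a2, b2⁆ : HameoGroup n) ∈ commutator (HameoGroup n) :=
      Subgroup.commutator_mem_commutator (Subgroup.mem_top _) (Subgroup.mem_top _)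
    rw [h, Subgroup.mem_bot] at h1
    exact hab (congrArg Subtype.val h1)
  · exact not_perfect hn hR h

theorem not_simple' (hn : 0 < n) (hR : Rigid n) : ¬ IsSimpleGroup (HamHomeoGroup n) := by
  intro hsimple
  let N : Subgroup (HamHomeoGroup n) := (Hameo n).subgroupOf (HamHomeo n)
  have hN : ∀ φ : HamHomeoGroup n, φ ∈ N ↔ φ.1 ∈ Hameo n := fun φ => Subgroup.mem_subgroupOf
  have hnor : N.Normal := by
    refine ⟨fun φ hφ g => ?_⟩
    rw [hN] at hφ ⊢
    obtain ⟨c, hc⟩ := (values hn).exist _ hφ
    have h1 := (values hn).conj φ.1 g.1 c hc g.2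
    exact (isHameo_iff _).2 ((isHo_iff hn _).2 ⟨c, (value_iff hn _ _).1 h1⟩)
  rcases hsimple.eq_bot_or_eq_top_of_normal N hnor with h | h
  · obtain ⟨a, b, ha, hb, hab⟩ := noncomm hn
    have h1 : (⁅a, b⁆ : Homeos n) ∈ Hameo n :=
      (Hameo n).mul_mem ((Hameo n).mul_mem ((Hameo n).mul_mem (mem_ham ha) (mem_ham hb))
        ((Hameo n).inv_mem (mem_ham ha))) ((Hameo n).inv_mem (mem_ham hb))
    let x : HamHomeoGroup n := ⟨⁅a, b⁆, hameo_le h1⟩
    have h2 : x ∈ N := (hN x).2 h1
    rw [h, Subgroup.mem_bot] at h2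
    exact hab (congrArg Subtype.val h2)
  · refine not_eq hn hR (le_antisymm hameo_le fun φ hφ => ?_)
    have h1 : (⟨φ, hφ⟩ : HamHomeoGroup n) ∈ N := by
      rw [h]
      exact Subgroup.mem_top _
    exact (hN _).1 h1

/-- **Calabi values of hameotopy loops and simplicity.**  Let `n ≥ 1`.
1. The Calabi values of hameomorphisms exist, they are compatible with products and inverses and
invariant under Hamiltonian homeomorphisms; `Hameo n` is contained in `HamHomeo n`.
2. One of `Rigid n`, `Flexible n` holds.
3. If `Rigid n` holds, the Calabi homomorphism extends to `Hameo n`; the groups `Hameo n` and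
`HamHomeo n` are not simple, `Hameo n` is not perfect, and some Hamiltonian homeomorphism has no
power in `Hameo n`.
4. If `Hameo n` or `HamHomeo n` is simple, or `Hameo n` is perfect, or the two groups are equal,
then `Flexible n` holds: every real number is a Calabi value of every hameomorphism, in particular
of the identity. -/
theorem result (n : ℕ) (hn : 0 < n) :
    Values n ∧ Hameo n ≤ HamHomeo n ∧ (Rigid n ∨ Flexible n) ∧
    (Rigid n → NotSimple n) ∧
    (IsSimpleGroup (HameoGroup n) ∨ IsSimpleGroup (HamHomeoGroup n) ∨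
      commutator (HameoGroup n) = ⊤ ∨ Hameo n = HamHomeo n → Flexible n) := by
  refine ⟨values hn, hameo_le, dichotomy hn, fun hR => ⟨exists_hom hn hR,
    not_simple hn hR, not_simple' hn hR, not_perfect hn hR, inf_index hn hR⟩, fun h => ?_⟩
  rcases dichotomy hn with hR | hF
  · exfalso
    rcases h with h | h | h | h
    · exact not_simple hn hR h
    · exact not_simple' hn hR h
    · exact not_perfect hn hR h
    · exact not_eq hn hR h
  · exact hF

end Pool.Agent.Results.MP_68f289_gt.HameotopyLoops
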