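import Mathlib
import Pool.Agent.H822.HC.Grp

/-!
# The Calabi invariant and uniform limits with bounded Hölder norms

Let `B` be the open unit ball of `ℝ^{2n}`, `n ≥ 1`, and let `Ham_c(B)` be the group of its
compactly supported Hamiltonian diffeomorphisms.  The Calabi invariant is not continuous for the
uniform convergence.  We show that it is continuous, with an explicit modulus, on every set of
Hamiltonian diffeomorphisms with bounded `α`-Hölder norms, for every `α > 1/2` and every `n`.  So
it extends to the group `HolHam n` of the uniform limits of Hamiltonian diffeomorphisms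
supported in a common compact set, with bounded `α`-Hölder norms (of the maps and their inverses)
for all `α < 1`.  This group lies between `Ham_c(B)` and the group `HamHomeo n` of compactly
supported Hamiltonian homeomorphisms; it is not perfect and not simple.

Definitions: `Pool/Agent/H822/HC/Defs.lean`, `Pool/Agent/H822/HC/Grp.lean`; `E`, `Q`, `XH`,
`Homeos`, `HamHomeo` are those of the library (`Y453/HB/Stm.lean`, `R773/HN/Defs.lean`), the same
as in the frozen statement S13311.
-/

set_option autoImplicit false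

open scoped ContDiff commutatorElement
open Set Filter Topology Function MeasureTheory
open Pool.Agent.H822.CalEst Pool.Agent.H822.Cal Pool.Agent.H822.HC
open Pool.Agent.H822.CalGrp hiding HolHam
open Pool.Agent Pool.Agent.H822
open Pool.Agent.Y453.HB (E Q XH IsHam HamBar)
open Pool.Agent.R773.HN (Homeos HamHomeo)

namespace Pool.Agent.Results.MP_68f289_gt.HolderCalabi

variable {n : ℕ}

/-- The Calabi invariant is continuous for the uniform distance, with modulus
`C ε ^ (2 - 1 / α)`, on the set of Hamiltonian diffeomorphisms which are locally `α`-Hölder with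
constant `A`. -/
def UniformModulus (n : ℕ) (α A : ℝ) : Prop :=
  ∃ C : ℝ, ∀ (u v : Homeos n) (r s ε : ℝ), Calabi u r → Calabi v s → Hoelder α A u →
    Hoelder α A v → 0 < ε → ε ≤ 1 → (∀ x, dst (u.map x) (v.map x) ≤ ε) →
    |r - s| ≤ C * ε ^ (2 - 1 / α)

/-- `c` extends the Calabi invariant of Hamiltonian diffeomorphisms. -/
def ExtendsCalabi (c : Gp n →* Multiplicative ℝ) : Prop :=
  ∀ (u : Gp n) (r : ℝ), Calabi u.homeo r → c u = Multiplicative.ofAdd r

/-- The value `c φ` is the limit of the Calabi invariants of every sequence of Hamiltonian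
diffeomorphisms which converges uniformly to `φ` and is bounded in some Hölder norm with exponent
larger than `1/2`. -/
def LimitOfCalabi (c : Gp n →* Multiplicative ℝ) : Prop :=
  ∀ (φ : Gp n) (v : ℕ → Homeos n) (r : ℕ → ℝ) (α A : ℝ), 1 / 2 < α → α < 1 →
    (∀ k, Calabi (v k) (r k)) → (∀ k, Hoelder α A (v k)) → UnifLim v φ.homeo →
    Tendsto r atTop (𝓝 (Multiplicative.toAdd (c φ)))

/-- `Γ` contains the Hamiltonian diffeomorphisms and is contained in the group of Hamiltonian
homeomorphisms -/
def Intermediate (Γ : Subgroup (Homeos n)) : Prop :=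
  (∀ (u : Homeos n) (r : ℝ), Calabi u r → u ∈ Γ) ∧ Γ ≤ HamHomeo n

theorem exists_ham (r : ℝ) : ∃ u : E n ≃ₜ E n, IsHam u ∧ IsCalabi u r := by
  have hcQ : Continuous (Q : E n → ℝ) := (Pool.Agent.Y453.HB.tri n).2.2.2.1
  have h0 : {p : E n | Q p < 1} ∈ 𝓝 (0 : E n) := by
    refine (isOpen_lt hcQ continuous_const).mem_nhds ?_
    show Q (0 : E n) < 1
    have : Q (0 : E n) = 0 := by simp [Q]
    rw [this]
    exact one_pos
  obtain ⟨ρ, hρ, hρB⟩ := Metric.nhds_basis_closedBall.mem_iff.1 h0
  let χ : ContDiffBump (0 : E n) := ⟨ρ / 2, ρ, by linarith, by linarith⟩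
  have hpos : 0 < ∫ x, χ x ∂(volume : Measure (E n)) := χ.integral_pos
  set h : E n → ℝ := fun x => r / (∫ x, χ x ∂(volume : Measure (E n))) * χ x with hh
  have hs : ContDiff ℝ ∞ h := contDiff_const.mul χ.contDiff
  have hoff : ∀ x, x ∉ Metric.closedBall (0 : E n) ρ → h x = 0 := by
    intro x hx
    rw [hh]
    simp only
    rw [χ.zero_of_le_dist, mul_zero]
    rw [Metric.mem_closedBall, not_le] at hx
    exact hx.le
  obtain ⟨u, ψ, h1, -, h3, h4, h5⟩ := Pool.Agent.R773.HN.flow n h hs (Metric.closedBall 0 ρ)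
    (isCompact_closedBall 0 ρ) hρB hoff
  refine ⟨u, h1, fun _ => h, ⟨hs.comp contDiff_snd, ⟨Metric.closedBall 0 ρ,
    isCompact_closedBall 0 ρ, hρB, fun _ => hoff⟩, ψ, h3, h4, h5⟩, ?_⟩
  have e1 : ∫ x, h x = r := by
    rw [hh, integral_const_mul]
    field_simp
  show r = ∫ t in (0 : ℝ)..1, ∫ x, h x
  rw [e1]
  simp

/-- **The Calabi homomorphism on Hölder limits.**  Let `n ≥ 1`.
1. For `1/2 < α ≤ 1` and all `A` there is `C` such that for all compactly supported Hamiltonian
diffeomorphisms `u`, `v` of the unit ball which are locally `α`-Hölder with constant `A`, and all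
`0 < ε ≤ 1` with `‖u - v‖ ≤ ε`, one has `|Cal u - Cal v| ≤ C ε^(2 - 1/α)`.
2. The group `HolHam n` contains `Ham_c(B)` and is contained in `HamHomeo n`.
3. The Calabi homomorphism extends to a surjective homomorphism `c : HolHam n → ℝ`, and `c φ` is
the limit of the Calabi invariants of the Hamiltonian diffeomorphisms of every sequence which
converges to `φ` and is bounded in `C^α` for some `α > 1/2`.
4. The group `HolHam n` is not perfect, and not simple. -/
theorem result (n : ℕ) (hn : 0 < n) :
    (∀ α A : ℝ, 1 / 2 < α → α ≤ 1 → UniformModulus n α A) ∧ Intermediate (HolHam n) ∧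
    (∃ c : Gp n →* Multiplicative ℝ, Surjective c ∧ ExtendsCalabi c ∧ LimitOfCalabi c) ∧
    commutator (Gp n) ≠ ⊤ ∧ ¬ IsSimpleGroup (Gp n) := by
  have key : ∀ (φ : Gp n), φ.homeo.homeo ∈ H822.CalGrp.HolHam n := fun φ => (H822.HC.mem_iff _).1 φ.2
  have keyH : ∀ (u : Homeos n), IsHam u.homeo → u ∈ H822.HC.HolHam n := fun u hu =>
    (H822.HC.mem_iff _).2 (ham_mem hu)
  let tr : Gp n →* H822.CalGrp.HolHam n :=
    { toFun := fun φ => ⟨φ.homeo.homeo, key φ⟩
      map_one' := rfl
      map_mul' := fun _ _ => rfl }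
  let c : Gp n →* Multiplicative ℝ := (calHom hn).comp tr
  have hex : ExtendsCalabi c := by
    intro u r hr
    have hr' := (calabi_iff _ _).1 hr
    have h1 := (isCalabi_iff hn hr'.isHam r).1 hr'
    show calHom hn (tr u) = _
    rw [calHom_eq hn (tr u) (hasCal_ham hr'.isHam), h1]
    rfl
  have hsurj : Surjective c := by
    intro r
    obtain ⟨u, hu, hr⟩ := exists_ham (Multiplicative.toAdd r)
    let u' : Homeos n := u
    exact ⟨⟨u', keyH u' hu⟩, hex _ _ ((calabi_iff _ _).2 hr)⟩
  have hone : ∃ φ : Gp n, c φ ≠ 1 := by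
    obtain ⟨φ, hφ⟩ := hsurj (Multiplicative.ofAdd 1)
    refine ⟨φ, fun h => ?_⟩
    rw [h] at hφ
    have := congrArg Multiplicative.toAdd hφ
    simp at this
  refine ⟨fun α A hα hα1 => ?_, ⟨fun u r hr => keyH u ((ham_iff u).1 ⟨r, hr⟩), fun φ hφ => ?_⟩,
    ⟨c, hsurj, hex, ?_⟩, ?_, ?_⟩
  · refine ⟨Kst n α |A|, fun u v r s ε hr hs hu hv hε hε1 hd => ?_⟩
    have hr' := (calabi_iff _ _).1 hr
    have hs' := (calabi_iff _ _).1 hs
    rw [(isCalabi_iff hn hr'.isHam r).1 hr', (isCalabi_iff hn hs'.isHam s).1 hs']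
    exact cal_est hn hα hα1 (abs_nonneg A) hr'.isHam hs'.isHam (hol_mono (le_abs_self A) hu)
      (hol_mono (le_abs_self A) hv) hε hε1 hd
  · exact hol_le ((H822.HC.mem_iff _).1 hφ)
  · intro φ v r α A hα hα1 hr hv hconv
    obtain ⟨K, u, h1⟩ := key φ
    obtain ⟨d, hd⟩ := h1.exists_cal hn
    have hr' := fun k => (calabi_iff _ _).1 (hr k)
    have h2 := lim_unique hn h1 hd hα hα1 (fun k => (hr' k).isHam) hv ((unif_iff _ _).1 hconv)
    have h3 : c φ = Multiplicative.ofAdd d := calHom_eq hn (tr φ) ⟨K, u, h1, hd⟩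
    rw [h3, toAdd_ofAdd]
    refine h2.congr fun k => ?_
    exact ((isCalabi_iff hn (hr' k).isHam (r k)).1 (hr' k)).symm
  · intro htop
    obtain ⟨φ, hφ⟩ := hone
    have h1 : commutator (Gp n) ≤ c.ker := Abelianization.commutator_subset_ker _
    rw [htop] at h1
    exact hφ (h1 (Subgroup.mem_top φ))
  · intro hsimple
    obtain ⟨φ, hφ⟩ := hone
    rcases hsimple.eq_bot_or_eq_top_of_normal c.ker (MonoidHom.normal_ker _) with h | h
    · obtain ⟨a, b, ha, hb, -, -, hab⟩ := Pool.Agent.R773.HN.L3
        (Pool.Agent.R773.HN.trans Pool.Agent.R773.HN.flow) hn (q := (0 : E n)) (r := 1 / 2)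
        (by norm_num) (by rw [Pool.Agent.R773.HN.nm_zero]; norm_num)
      let a' : Homeos n := a
      let b' : Homeos n := b
      let a2 : Gp n := ⟨a', keyH a' ha⟩
      let b2 : Gp n := ⟨b', keyH b' hb⟩
      have h1 : (⁅a2, b2⁆ : Gp n) ∈ c.ker :=
        Abelianization.commutator_subset_ker _ (Subgroup.commutator_mem_commutator
          (Subgroup.mem_top _) (Subgroup.mem_top _))
      rw [h, Subgroup.mem_bot] at h1
      exact hab (congrArg Subtype.val h1)
    · have h1 : φ ∈ c.ker := by
        rw [h]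
        exact Subgroup.mem_top φ
      exact hφ h1

end Pool.Agent.Results.MP_68f289_gt.HolderCalabi
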